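import Pool.Agent.H23.MV.NoStar

/-!
# NoStar
-/

open MeasureTheory ProbabilityTheory Set Filter

open scoped ENNReal Topology

namespace Pool.Agent.Results.MP_f93fdf_pr.NoStar

open Pool.H23.MV.NoStar

/-- **Answer to Q1: no.** There is a law `μ` of the sequence of waiting times `X(1), X(2), ...`
whose entries are independent, positive and finite (in fact exponentially distributed with
summable means, so that their sum is almost surely finite), such that the Crump-Mode-Jagers
process is explosive, survives almost surely, and almost surely no individual at all has infinitely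
many children in the tree of the individuals born before the explosion time. -/
theorem result :
    ∃ μ : Measure (ℕ → ℝ≥0∞),
      iIndepFun (fun (j : ℕ) (x : ℕ → ℝ≥0∞) => x j) μ ∧
      (∃ f : ℕ → ℝ, (∀ j, 0 < f j) ∧ Summable (fun j => (f j)⁻¹) ∧
        ∀ j, μ.map (fun x => x j) = (expMeasure (f j)).map ENNReal.ofReal) ∧
      (∀ᵐ x ∂μ, (∀ j, 0 < x j ∧ x j < ∞) ∧ ∑' j, x j < ∞) ∧
      (∃ (Ω : Type) (_ : MeasurableSpace Ω) (P : Measure Ω) (X : List ℕ → Ω → ℕ → ℝ≥0∞),
        IsIIDFamily μ P X) ∧
      ∀ (Ω : Type) [MeasurableSpace Ω] (P : Measure Ω) (X : List ℕ → Ω → ℕ → ℝ≥0∞),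
        IsIIDFamily μ P X →
          IsProbabilityMeasure P ∧ Explosive P X ∧
            ∀ᵐ ω ∂P, (tree fun u => X u ω).Infinite ∧
              ∀ u, ¬ HasInfiniteDegree (fun u => X u ω) u :=
  Pool.H23.MV.NoStar.result

end Pool.Agent.Results.MP_f93fdf_pr.NoStar
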